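import Pool.Agent.Helper48.OD.St

/-! Project OD, module MXS -/

set_option autoImplicit false

namespace Pool.Agent.Helper63.OD

open Pool.Agent.Helper43.GD Pool.Agent.Helper48.OD

private theorem pow_span {L : Type} [CommRing L] {v : L} (hv : Gn v) (N : AddSubgroup L)
    (h : ∀ n : ℕ, v ^ n ∈ N) (y : L) : y ∈ N := by
  let N' : AddSubgroup L :=
    { carrier := {y | ∀ n : ℕ, v ^ n * y ∈ N}
      add_mem' := fun {a b} ha hb n => by rw [mul_add]; exact N.add_mem (ha n) (hb n)
      zero_mem' := fun n => by rw [mul_zero]; exact N.zero_mem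
      neg_mem' := fun {a} ha n => by rw [mul_neg]; exact N.neg_mem (ha n) }
  have h1 : y ∈ N' := by
    refine hv N' (fun n => by rw [mul_one]; exact h n) (fun y hy n => ?_) y
    have := hy (n + 1)
    rwa [pow_succ, mul_assoc] at this
  have := h1 0
  rwa [pow_zero, one_mul] at this

private theorem cl_span {L : Type} [CommRing L] {D r : L} (hr : r ∈ Subring.closure ({D} : Set L))
    (N : AddSubgroup L) (h : ∀ n : ℕ, D ^ n ∈ N) : r ∈ N := by
  rw [Subring.mem_closure_iff] at hr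
  refine (AddSubgroup.closure_le N).2 ?_ hr
  intro x hx
  obtain ⟨n, rfl⟩ := Submonoid.mem_closure_singleton.1 hx
  exact h n

section

variable {L A : Type} [CommRing L] [Group A] (Q : Fr L A)

/-- elements `c` such that `E c` commutes with `F b` -/
private def CE (b : L) : AddSubgroup L where
  carrier := {c | Q.E c * Q.F b = Q.F b * Q.E c}
  add_mem' := fun {x y} hx hy => by
    have hx' : Q.E x * Q.F b = Q.F b * Q.E x := hx
    have hy' : Q.E y * Q.F b = Q.F b * Q.E y := hy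
    change Q.E (x + y) * Q.F b = Q.F b * Q.E (x + y)
    rw [Q.Eadd, mul_assoc, hy', ← mul_assoc, hx', mul_assoc]
  zero_mem' := by
    change Q.E 0 * Q.F b = Q.F b * Q.E 0
    rw [Q.E_zero, one_mul, mul_one]
  neg_mem' := fun {x} hx => by
    have hx' : Q.E x * Q.F b = Q.F b * Q.E x := hx
    change Q.E (-x) * Q.F b = Q.F b * Q.E (-x)
    rw [Q.E_neg, inv_mul_eq_iff_eq_mul, ← mul_assoc, hx', mul_inv_cancel_right]

/-- elements `c` such that `E a` commutes with `F c` -/
private def CF (a : L) : AddSubgroup L where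
  carrier := {c | Q.E a * Q.F c = Q.F c * Q.E a}
  add_mem' := fun {x y} hx hy => by
    have hx' : Q.E a * Q.F x = Q.F x * Q.E a := hx
    have hy' : Q.E a * Q.F y = Q.F y * Q.E a := hy
    change Q.E a * Q.F (x + y) = Q.F (x + y) * Q.E a
    rw [Q.Fadd, mul_assoc, ← hy', ← mul_assoc, hx', mul_assoc]
  zero_mem' := by
    change Q.E a * Q.F 0 = Q.F 0 * Q.E a
    rw [Q.F_zero, one_mul, mul_one]
  neg_mem' := fun {x} hx => by
    have hx' : Q.E a * Q.F x = Q.F x * Q.E a := hx
    change Q.E a * Q.F (-x) = Q.F (-x) * Q.E a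
    rw [Q.F_neg, eq_inv_mul_iff_mul_eq, ← mul_assoc, ← hx', mul_inv_cancel_right]

private theorem mem_CE {b c : L} : c ∈ CE Q b ↔ Q.E c * Q.F b = Q.F b * Q.E c := Iff.rfl

private theorem mem_CF {a c : L} : c ∈ CF Q a ↔ Q.E a * Q.F c = Q.F c * Q.E a := Iff.rfl

end

theorem hMXS (h1 : Pool.Agent.Helper50.AY.StSPL) (h2 : StNV) : StMXS := by
  intro L A _ _ Q v z e g j m hv hee hje hm hme hg hz hod hze
  have hfin : Finite L := hv.fin
  -- step 1
  obtain ⟨N, hN, hzN⟩ := hod
  set s : L := ∑ i ∈ Finset.range N, (z : L) ^ i with hs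
  have hze' : (z : L) * e = e := by linear_combination hze
  have hpe : ∀ i : ℕ, (z : L) ^ i * e = e := by
    intro i
    induction i with
    | zero => rw [pow_zero, one_mul]
    | succ i ih => rw [pow_succ, mul_assoc, hze', ih]
  have hse : s * e = (N : L) * e := by
    rw [hs, Finset.sum_mul, Finset.sum_congr rfl fun i _ => hpe i, Finset.sum_const,
      Finset.card_range, nsmul_eq_mul]
  have hcop : IsCoprime ((2 ^ j : ℕ) : ℤ) ((m * N : ℕ) : ℤ) := by
    rw [Nat.isCoprime_iff_coprime]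
    exact Nat.Coprime.pow_left j (Nat.coprime_two_left.2 (hm.mul hN))
  obtain ⟨α, β, hαβ⟩ := hcop
  have hαβ' : (α : L) * 2 ^ j + (β : L) * ((m : L) * (N : L)) = 1 := by
    have := congrArg (Int.cast : ℤ → L) hαβ
    push_cast at this
    exact this
  have hMs : ((m * β : ℤ) : L) * s = e := by
    push_cast
    have e1 : (m : L) * (β : L) * s = (β : L) * (m : L) * (s * e) +
        (β : L) * s * ((m : L) * (1 - e)) := by ring
    rw [e1, hse, hme]
    linear_combination e * hαβ' - (α : L) * hje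
  have star : ∀ a ∈ Q.U, (a : L) * e ∈ CE Q (((z : L) - 1) * ((a⁻¹ : Lˣ) : L)) := by
    intro a ha
    have h3 : (a : L) * s ∈ CE Q (((z : L) - 1) * ((a⁻¹ : Lˣ) : L)) :=
      h1 L A Q z a N hz ha hzN
    have h4 := AddSubgroup.zsmul_mem _ h3 (m * β)
    rw [zsmul_eq_mul, mul_left_comm, hMs] at h4
    exact h4
  -- step 2
  obtain ⟨cu, hcu, ecu⟩ := h2 L A Q v hv
  obtain ⟨du, hdu, edu⟩ := hv.gd.2
  obtain ⟨D, hD⟩ : ∃ D : Lˣ, D = cu * du⁻¹ := ⟨_, rfl⟩
  have hDU : D ∈ Q.U := by
    rw [hD]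
    exact Q.U.mul_mem hcu (Q.U.inv_mem hdu)
  have hDd : (D : L) * (1 - (v : L)) = 1 + (v : L) := by
    rw [← edu, ← ecu, hD, ← Units.val_mul, inv_mul_cancel_right]
  have hDi : ((D⁻¹ : Lˣ) : L) - 1 = 2 * (-((v : L) * ((cu⁻¹ : Lˣ) : L))) := by
    have e1 : D⁻¹ = du * cu⁻¹ := by rw [hD, mul_inv, inv_inv, mul_comm]
    have e2 : (cu : L) * ((cu⁻¹ : Lˣ) : L) = 1 := cu.mul_inv
    rw [e1, Units.val_mul, edu]
    rw [ecu] at e2
    linear_combination e2
  have hDn : ∀ n : ℕ, ∃ w : L, ((D⁻¹ : Lˣ) : L) ^ n = 1 + 2 * w := by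
    intro n
    have h3 := sub_dvd_pow_sub_pow ((D⁻¹ : Lˣ) : L) 1 n
    rw [one_pow] at h3
    obtain ⟨q, hq⟩ := h3
    refine ⟨(-((v : L) * ((cu⁻¹ : Lˣ) : L))) * q, ?_⟩
    rw [hDi] at hq
    linear_combination hq
  -- step 4
  have hR : ∀ c : L, ∃ r ∈ Subring.closure ({(D : L)} : Set L),
      ((z : L) - 1) * c = ((z : L) - 1) * r := by
    let R : Subring L := Subring.closure ({(D : L)} : Set L)
    have hDR : (D : L) ∈ R := Subring.subset_closure rfl
    let S : Subring L :=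
      { carrier := {c | ∃ r ∈ R, ((z : L) - 1) * c = ((z : L) - 1) * r}
        mul_mem' := by
          rintro a b ⟨r, hr, h3⟩ ⟨r', hr', h4⟩
          refine ⟨r * r', R.mul_mem hr hr', ?_⟩
          linear_combination b * h3 + r * h4
        one_mem' := ⟨1, R.one_mem, rfl⟩
        add_mem' := by
          rintro a b ⟨r, hr, h3⟩ ⟨r', hr', h4⟩
          refine ⟨r + r', R.add_mem hr hr', ?_⟩
          linear_combination h3 + h4
        zero_mem' := ⟨0, R.zero_mem, rfl⟩
        neg_mem' := by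
          rintro a ⟨r, hr, h3⟩
          refine ⟨-r, R.neg_mem hr, ?_⟩
          linear_combination -h3 }
    have hvS : (v : L) ∈ S := by
      have hD1 : ((D : L) + 1) * (1 - (v : L)) = 2 := by linear_combination hDd
      have hD2 : (v : L) * ((D : L) + 1) = (D : L) - 1 := by linear_combination -hDd
      -- a unit
      have hy : (((D : L) + 1) * (1 - e) + e) * (g * (1 - (v : L)) * (1 - e) + e) = 1 := by
        linear_combination (g * (1 - e) ^ 2) * hD1 + (1 - e) ^ 2 * hg +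
          (3 - e - ((D : L) + 1) - g * (1 - (v : L))) * hee
      obtain ⟨y, hyd⟩ : ∃ y : Lˣ, (y : L) = ((D : L) + 1) * (1 - e) + e :=
        ⟨Units.mkOfMulEqOne _ _ hy, rfl⟩
      have hyo : IsOfFinOrder y := isOfFinOrder_of_finite y
      have hn : 0 < orderOf y := hyo.orderOf_pos
      have hyn : (((D : L) + 1) * (1 - e) + e) ^ (orderOf y) = 1 := by
        rw [← hyd, ← Units.val_pow_eq_pow_val, pow_orderOf_eq_one, Units.val_one]
      have hpow : ∀ n : ℕ, (1 - e) * (((D : L) + 1) * (1 - e) + e) ^ n =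
          (1 - e) * ((D : L) + 1) ^ n := by
        intro n
        induction n with
        | zero => rw [pow_zero, pow_zero]
        | succ n ih =>
          rw [pow_succ, pow_succ, ← mul_assoc, ih, ← mul_assoc]
          linear_combination (((D : L) + 1) ^ n * (D : L)) * hee
      have h5 : (1 - e) * ((D : L) + 1) ^ (orderOf y) = 1 - e := by
        rw [← hpow, hyn, mul_one]
      obtain ⟨n, hn'⟩ := Nat.exists_eq_succ_of_ne_zero hn.ne'
      rw [hn', Nat.succ_eq_add_one, pow_succ] at h5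
      refine ⟨((D : L) + 1) ^ n * ((D : L) - 1), R.mul_mem (R.pow_mem
        (R.add_mem hDR R.one_mem) n) (R.sub_mem hDR R.one_mem), ?_⟩
      have h6 : ((z : L) - 1) * (1 - e) = (z : L) - 1 := by linear_combination -hze
      calc ((z : L) - 1) * (v : L) = ((z : L) - 1) * (1 - e) * (v : L) := by rw [h6]
        _ = ((z : L) - 1) * ((1 - e) * (((D : L) + 1) ^ n * ((D : L) + 1))) * (v : L) := by
            rw [h5]
        _ = (((z : L) - 1) * (1 - e)) * (((D : L) + 1) ^ n * ((v : L) * ((D : L) + 1))) := by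
            ring
        _ = _ := by rw [h6, hD2]
    have hS : S = ⊤ := (gn_iff (v : L)).1 hv.gn S hvS
    intro c
    have : c ∈ S := by rw [hS]; trivial
    exact this
  -- the claim
  have claim : ∀ i : ℕ,
      (∀ a b : L, (2 : L) ^ (i + 1) * (e * a) ∈ CE Q (((z : L) - 1) * b)) →
      ∀ a b : L, (2 : L) ^ i * (e * a) ∈ CE Q (((z : L) - 1) * b) := by
    intro i ih
    have s3 : ∀ a ∈ Q.U, ∀ n : ℕ, (2 : L) ^ i * (e * (a : L)) ∈
        CE Q (((z : L) - 1) * ((D : L) ^ n * ((a⁻¹ : Lˣ) : L))) := by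
      intro a ha n
      obtain ⟨w, hw⟩ := hDn n
      have h3 := star (a * D⁻¹ ^ n) (Q.U.mul_mem ha (Q.U.pow_mem (Q.U.inv_mem hDU) n))
      have e1 : (((a * D⁻¹ ^ n)⁻¹ : Lˣ) : L) = (D : L) ^ n * ((a⁻¹ : Lˣ) : L) := by
        rw [mul_inv, inv_pow, inv_inv, mul_comm, Units.val_mul, Units.val_pow_eq_pow_val]
      rw [e1, Units.val_mul, Units.val_pow_eq_pow_val, hw] at h3
      have h4 := AddSubgroup.nsmul_mem _ h3 (2 ^ i)
      rw [nsmul_eq_mul] at h4
      push_cast at h4
      have h5 := ih ((a : L) * w) ((D : L) ^ n * ((a⁻¹ : Lˣ) : L))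
      have h6 := AddSubgroup.sub_mem _ h4 h5
      have e2 : (2 : L) ^ i * ((a : L) * (1 + 2 * w) * e) - 2 ^ (i + 1) * (e * ((a : L) * w)) =
          2 ^ i * (e * (a : L)) := by ring
      rwa [e2] at h6
    have s5 : ∀ a ∈ Q.U, ∀ b : L, (2 : L) ^ i * (e * (a : L)) ∈ CE Q (((z : L) - 1) * b) := by
      intro a ha b
      let N5 : AddSubgroup L :=
        (CF Q ((2 : L) ^ i * (e * (a : L)))).comap
          ((AddMonoidHom.mulLeft ((z : L) - 1)).comp
            (AddMonoidHom.mulRight ((a⁻¹ : Lˣ) : L)))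
      have hN5 : ∀ c : L, c ∈ N5 ↔ (2 : L) ^ i * (e * (a : L)) ∈
          CE Q (((z : L) - 1) * (c * ((a⁻¹ : Lˣ) : L))) := fun c => Iff.rfl
      obtain ⟨r, hr, hrb⟩ := hR (b * (a : L))
      have h7 : r ∈ N5 := cl_span hr N5 fun n => (hN5 _).2 (s3 a ha n)
      have h8 := (hN5 r).1 h7
      have e3 : ((z : L) - 1) * (r * ((a⁻¹ : Lˣ) : L)) = ((z : L) - 1) * b := by
        have e4 : (a : L) * ((a⁻¹ : Lˣ) : L) = 1 := a.mul_inv
        rw [← mul_assoc, ← hrb]
        linear_combination (((z : L) - 1) * b) * e4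
      rwa [e3] at h8
    intro a b
    let N6 : AddSubgroup L := (CE Q (((z : L) - 1) * b)).comap
      ((AddMonoidHom.mulLeft ((2 : L) ^ i)).comp (AddMonoidHom.mulLeft e))
    have hN6 : ∀ c : L, c ∈ N6 ↔ (2 : L) ^ i * (e * c) ∈ CE Q (((z : L) - 1) * b) :=
      fun c => Iff.rfl
    refine (hN6 a).1 (pow_span hv.gn N6 (fun n => (hN6 _).2 ?_) a)
    have := s5 (v ^ n) (Q.U.pow_mem hv.gd.1 n) b
    rwa [Units.val_pow_eq_pow_val] at this
  have fin : ∀ n i : ℕ, n + i = j → ∀ a b : L, (2 : L) ^ i * (e * a) ∈ CE Q (((z : L) - 1) * b) := by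
    intro n
    induction n with
    | zero =>
      intro i hi a b
      have hij : i = j := by omega
      subst hij
      rw [← mul_assoc, hje, zero_mul]
      exact (CE Q _).zero_mem
    | succ n ih =>
      intro i hi
      exact claim i (ih (i + 1) (by omega))
  intro a b
  have := fin j 0 (by omega) a b
  rw [pow_zero, one_mul] at this
  exact this

end Pool.Agent.Helper63.OD
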