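import Pool.Agent.Helper48.OD.St

/-! Project OD, module XB -/

set_option autoImplicit false

namespace Pool.Agent.Helper63.OD

open Pool.Agent.Helper43.GD Pool.Agent.Helper48.OD

private theorem core (h1 : StK2G) (h2 : StK2T) {L A : Type} [CommRing L] [Group A]
    {Q : Fr L A} {v : Lˣ} (hD : D2 L A Q v) {c s₁ s₂ : Lˣ} (hc : c ∈ Q.U) (oc : Od c)
    (k1 : K2 Q s₁) (o1 : Od s₁) (k2 : K2 Q s₂) (o2 : Od s₂) (i1 : Q.In (1 - (c : L) * (s₁ : L)))
    (i2 : Q.In (1 - (c : L) * (s₂ : L))) (hg : Gn ((s₁ * s₂⁻¹ : Lˣ) : L)) : K2 Q c := by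
  obtain ⟨_, _, hmul, hinv, _, _⟩ := h1 L A Q v hD
  have kt : K2 Q (s₁ * s₂⁻¹) := hmul _ _ k1 (hinv _ k2)
  have g1 : Gd Q (c * s₁) := ⟨Q.U.mul_mem hc k1.1, by rw [Units.val_mul]; exact i1⟩
  have e1 : c * s₁ * (s₁ * s₂⁻¹)⁻¹ = c * s₂ := by
    rw [mul_inv, inv_inv, mul_assoc, mul_inv_cancel_left]
  have g2 : Gd Q (c * s₁ * (s₁ * s₂⁻¹)⁻¹) := by
    rw [e1]
    exact ⟨Q.U.mul_mem hc k2.1, by rw [Units.val_mul]; exact i2⟩
  have kT := h2.2 L A Q v hD (c * s₁) (s₁ * s₂⁻¹) g1 (oc.mul o1) kt (o1.mul o2.inv) hg g2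
  have := hmul _ _ kT (hinv _ k1)
  rwa [mul_inv_cancel_right] at this

theorem hXB (h1 : StK2G) (h2 : StK2T) (h3 : StK2V) (h4 : StDOD) : StXB := by
  intro L A _ _ Q v a c hD ka oa ga hc
  have hfin : Finite L := hD.fo.fin
  obtain ⟨_, km1, hmul, hinv, hin, _⟩ := h1 L A Q v hD
  obtain ⟨v', hv'U, hv'⟩ := hD.fo.gd.2
  obtain ⟨kv, kv'⟩ := h3 L A Q v v' hD hv'
  have hvU : v ∈ Q.U := hD.fo.gd.1
  have ov : Od v := hD.fo.od
  have evv : (v : L) * ((v⁻¹ : Lˣ) : L) = 1 := v.mul_inv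
  have evv' : (v' : L) * ((v'⁻¹ : Lˣ) : L) = 1 := v'.mul_inv
  have first : ∀ a c : Lˣ, K2 Q a → Od a → Gd Q a → (c : L) = 1 - (a : L) → Od c → K2 Q c := by
    intro a c ka oa ga hc oc
    have hcU : c ∈ Q.U := (Gd.one_sub Q ga hc).1
    rcases (h4 L A Q v hD).1 v' hv'U with ov' | ov'
    · refine core h1 h2 hD hcU oc kv ov kv' ov' ?_ ?_ ?_
      · have i1 := in_mul Q (in_val Q hv'U) (hin (a * v * v'⁻¹) (hmul _ _ (hmul _ _ ka kv)
          (hinv _ kv')) ((oa.mul ov).mul ov'.inv))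
        have e1 : (v' : L) * (1 + ((a * v * v'⁻¹ : Lˣ) : L)) = 1 - (c : L) * (v : L) := by
          push_cast
          linear_combination ((a : L) * (v : L)) * evv' + hv' + (v : L) * hc
        rwa [e1] at i1
      · have i1 := in_mul Q (in_val Q hvU) (hin (a * v' * v⁻¹) (hmul _ _ (hmul _ _ ka kv')
          (hinv _ kv)) ((oa.mul ov').mul ov.inv))
        have e1 : (v : L) * (1 + ((a * v' * v⁻¹ : Lˣ) : L)) = 1 - (c : L) * (v' : L) := by
          push_cast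
          linear_combination ((a : L) * (v' : L)) * evv + hv' + (v' : L) * hc
        rwa [e1] at i1
      · rw [gn_iff]
        intro R hR
        have m1 : ((v'⁻¹ : Lˣ) : L) ∈ R := by
          have := R.add_mem R.one_mem hR
          have e1 : (1 : L) + ((v * v'⁻¹ : Lˣ) : L) = ((v'⁻¹ : Lˣ) : L) := by
            push_cast
            linear_combination -evv' + ((v'⁻¹ : Lˣ) : L) * hv'
          rwa [e1] at this
        have m2 := inv_mem R v'⁻¹ m1
        rw [inv_inv] at m2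
        refine (gn_iff (v : L)).1 hD.fo.gn R ?_
        have e2 : (v : L) = 1 - (v' : L) := by rw [hv']; ring
        rw [e2]
        exact R.sub_mem R.one_mem m2
    · have kmv : K2 Q (-v') := by
        have := hmul _ _ km1 kv'
        rwa [neg_one_mul] at this
      have oim : Od ((-v')⁻¹) := ov'.inv
      have ein : (-v')⁻¹ = -(v'⁻¹) := inv_neg
      have e3 : (v⁻¹) * (-v' * v⁻¹)⁻¹ = -(v'⁻¹) := by
        rw [mul_inv, inv_inv, mul_comm ((-v')⁻¹) v, inv_mul_cancel_left, ein]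
      refine core h1 h2 hD hcU oc (hinv _ kv) ov.inv (hmul _ _ kmv (hinv _ kv))
        (ov'.mul ov.inv) ?_ ?_ ?_
      · have i1 := in_mul Q (in_neg Q (in_mul Q (in_val Q hv'U) (in_val Q (Q.U.inv_mem hvU))))
          (hin (a * (-v')⁻¹) (hmul _ _ ka (hinv _ kmv)) (oa.mul oim))
        have e1 : -((v' : L) * ((v⁻¹ : Lˣ) : L)) * (1 + ((a * (-v')⁻¹ : Lˣ) : L)) =
            1 - (c : L) * ((v⁻¹ : Lˣ) : L) := by
          rw [ein]
          push_cast
          linear_combination ((a : L) * ((v⁻¹ : Lˣ) : L)) * evv' - ((v⁻¹ : Lˣ) : L) * hv' +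
            ((v⁻¹ : Lˣ) : L) * hc + evv
        rwa [e1] at i1
      · have i1 := in_mul Q (in_val Q (Q.U.inv_mem hvU)) (hin (a * (-v')) (hmul _ _ ka kmv)
          (oa.mul ov'))
        have e1 : ((v⁻¹ : Lˣ) : L) * (1 + ((a * (-v') : Lˣ) : L)) =
            1 - (c : L) * ((-v' * v⁻¹ : Lˣ) : L) := by
          push_cast
          linear_combination evv - ((v⁻¹ : Lˣ) : L) * hv' - ((v' : L) * ((v⁻¹ : Lˣ) : L)) * hc
        rwa [e1] at i1
      · rw [e3, gn_iff]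
        intro R hR
        have m1 : ((v'⁻¹ : Lˣ) : L) ∈ R := by
          have := R.neg_mem hR
          push_cast at this
          rwa [neg_neg] at this
        have m2 := inv_mem R v'⁻¹ m1
        rw [inv_inv] at m2
        refine (gn_iff (v : L)).1 hD.fo.gn R ?_
        have e2 : (v : L) = 1 - (v' : L) := by rw [hv']; ring
        rw [e2]
        exact R.sub_mem R.one_mem m2
  have hcU : c ∈ Q.U := (Gd.one_sub Q ga hc).1
  rcases (h4 L A Q v hD).1 c hcU with oc | oc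
  · exact first a c ka oa ga hc oc
  · have h5 : K2 Q (-c * a⁻¹) := by
      refine first a⁻¹ (-c * a⁻¹) (hinv _ ka) oa.inv (Gd.inv Q ga) ?_ (oc.mul oa.inv)
      have eaa : (a : L) * ((a⁻¹ : Lˣ) : L) = 1 := a.mul_inv
      push_cast
      linear_combination (-((a⁻¹ : Lˣ) : L)) * hc + eaa
    have h6 := hmul _ _ km1 (hmul _ _ h5 ka)
    rwa [inv_mul_cancel_right, neg_one_mul, neg_neg] at h6

end Pool.Agent.Helper63.OD
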